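import Pool.Agent.Helper44.GN.Defs

/-!
# GN, module DSG (helper97): the logarithmic derivative of `sg`
-/

open Finset MeasureTheory Filter Topology Matrix
open scoped ENNReal ContDiff

namespace Pool.Agent.Helper44.GN

open Pool.Agent.Helper44.GF

/-- entrywise derivative of a matrix valued function -/
def dsgD {a b : ℕ} (A : ℝ → Matrix (Fin a) (Fin b) ℝ) (A' : Matrix (Fin a) (Fin b) ℝ)
    (s0 : ℝ) : Prop :=
  ∀ i j, HasDerivAt (fun s => A s i j) (A' i j) s0

theorem dsg_mul {a b c : ℕ} {A : ℝ → Matrix (Fin a) (Fin b) ℝ}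
    {B : ℝ → Matrix (Fin b) (Fin c) ℝ} {A' : Matrix (Fin a) (Fin b) ℝ}
    {B' : Matrix (Fin b) (Fin c) ℝ} {s0 : ℝ} (hA : dsgD A A' s0) (hB : dsgD B B' s0) :
    dsgD (fun s => A s * B s) (A' * B s0 + A s0 * B') s0 := by
  intro i j
  simp only [Matrix.mul_apply, Matrix.add_apply]
  rw [← Finset.sum_add_distrib]
  apply HasDerivAt.fun_sum
  intro k _
  exact (hA i k).mul (hB k j)

theorem dsg_TT {n m : ℕ} (V W : Matrix (Fin n) (Fin m) ℝ) (y : Fin n → ℝ) (x : Fin n) :
    dsgD (fun s => TT V W (Function.update y x s)) (Matrix.vecMulVec (V x) (W x)) (y x) := by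
  intro i j
  have h : (fun s : ℝ => TT V W (Function.update y x s) i j)
      = fun s => ∑ k, V k i * Function.update y x s k * W k j := by
    funext s
    unfold TT
    rw [Matrix.mul_apply]
    refine Finset.sum_congr rfl fun k _ => ?_
    rw [Matrix.mul_diagonal, Matrix.transpose_apply]
  rw [h]
  have h2 : Matrix.vecMulVec (V x) (W x) i j
      = ∑ k, (if k = x then V x i * W x j else 0) := by
    rw [Finset.sum_ite_eq' Finset.univ x, if_pos (Finset.mem_univ x), Matrix.vecMulVec_apply]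
  rw [h2]
  apply HasDerivAt.fun_sum
  intro k _
  by_cases hk : k = x
  · subst hk
    simp only [Function.update_self, if_true]
    have := ((hasDerivAt_id (y k)).const_mul (V k i)).mul_const (W k j)
    simpa using this
  · simp only [Function.update_of_ne hk, if_neg hk]
    exact hasDerivAt_const _ _

theorem dsg_trace {a : ℕ} {A : ℝ → Matrix (Fin a) (Fin a) ℝ} {A' : Matrix (Fin a) (Fin a) ℝ}
    {s0 : ℝ} (hA : dsgD A A' s0) : HasDerivAt (fun s => Matrix.trace (A s)) (Matrix.trace A') s0 := by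
  simp only [Matrix.trace, Matrix.diag]
  apply HasDerivAt.fun_sum
  intro i _
  exact hA i i

theorem dsg_tr {a : ℕ} (M N : Matrix (Fin a) (Fin a) ℝ) (v w : Fin a → ℝ) :
    Matrix.trace (M * Matrix.vecMulVec v w * N) = w ⬝ᵥ (N * M) *ᵥ v := by
  rw [Matrix.trace_mul_comm, ← Matrix.mul_assoc, Matrix.mul_vecMulVec, Matrix.trace_vecMulVec,
    dotProduct_comm]

theorem dsg_kp (h1 : ST_PJP) {n m : ℕ} (V W : Matrix (Fin n) (Fin m) ℝ)
    (hV : Function.Injective V.mulVec) (hW : Function.Injective W.mulVec) (y : Fin n → ℝ)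
    (hy : y ∈ Og n) (x : Fin n) : kp W V y x = kp V W y x := by
  unfold kp
  have e : (PJ V y * PJ W y)ᵀ = PJ W y * PJ V y := by
    rw [Matrix.transpose_mul, (h1 n m V hV y hy).2.1, (h1 n m W hW y hy).2.1]
  rw [← e, Matrix.transpose_apply]

theorem st_DSG (h1 : ST_PJP) (h2 : ST_PJE) (h3 : ST_DIN) : ST_DSG := by
  intro n m V W hV hW y hy x
  have hy0 : 0 < y x := hy x
  have hup : ∀ s : ℝ, 0 < s → Function.update y x s ∈ Og n := by
    intro s hs k
    by_cases hk : k = x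
    · subst hk
      rw [Function.update_self]
      exact hs
    · rw [Function.update_of_ne hk]
      exact hy k
  have heq : (fun s => sg V W (Function.update y x s)) =ᶠ[𝓝 (y x)] fun s => (m : ℝ)
      - Matrix.trace ((TT V V (Function.update y x s))⁻¹ * TT V W (Function.update y x s)
        * (TT W W (Function.update y x s))⁻¹ * TT W V (Function.update y x s)) := by
    filter_upwards [lt_mem_nhds hy0] with s hs
    unfold sg
    rw [(h2 n m V W _ (hup s hs)).2.2.1]
  refine HasDerivAt.congr_of_eventuallyEq ?_ heq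
  have hVi : dsgD (fun s => (TT V V (Function.update y x s))⁻¹)
      (-((TT V V y)⁻¹ * Matrix.vecMulVec (V x) (V x) * (TT V V y)⁻¹)) (y x) := by
    intro i j
    exact h3 n m V hV y hy x i j
  have hWi : dsgD (fun s => (TT W W (Function.update y x s))⁻¹)
      (-((TT W W y)⁻¹ * Matrix.vecMulVec (W x) (W x) * (TT W W y)⁻¹)) (y x) := by
    intro i j
    exact h3 n m W hW y hy x i j
  have hT := dsg_TT V W y x
  have hT' := dsg_TT W V y x
  have hD := dsg_trace (dsg_mul (dsg_mul (dsg_mul hVi hT) hWi) hT')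
  have hD2 := hD.const_sub (m : ℝ)
  simp only [Function.update_eq_self] at hD2
  convert hD2 using 1
  set Vi := (TT V V y)⁻¹ with hVi0
  set Wi := (TT W W y)⁻¹ with hWi0
  set T := TT V W y with hT0
  set T' := TT W V y with hT0'
  have e1 : (PJ V y * PJ W y * PJ V y) x x
      = y x * (V x ⬝ᵥ (Vi * T * Wi * T' * Vi) *ᵥ V x) := (h2 n m V W y hy).2.2.2 x
  have e2 : (PJ W y * PJ V y * PJ W y) x x
      = y x * (W x ⬝ᵥ (Wi * T' * Vi * T * Wi) *ᵥ W x) := (h2 n m W V y hy).2.2.2 x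
  have e3 : kp V W y x = y x * (V x ⬝ᵥ (Vi * T * Wi) *ᵥ W x) := (h2 n m V W y hy).2.1 x
  have e4 : kp V W y x = y x * (W x ⬝ᵥ (Wi * T' * Vi) *ᵥ V x) := by
    rw [← dsg_kp h1 V W hV hW y hy x]
    exact (h2 n m W V y hy).2.1 x
  have f1 : Matrix.trace (-(Vi * Matrix.vecMulVec (V x) (V x) * Vi) * T * Wi * T')
      = -(V x ⬝ᵥ (Vi * T * Wi * T' * Vi) *ᵥ V x) := by
    have : -(Vi * Matrix.vecMulVec (V x) (V x) * Vi) * T * Wi * T'
        = -(Vi * Matrix.vecMulVec (V x) (V x) * (Vi * T * Wi * T')) := by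
      simp only [Matrix.neg_mul, Matrix.mul_assoc]
    rw [this, Matrix.trace_neg, dsg_tr]
  have f2 : Matrix.trace (Vi * Matrix.vecMulVec (V x) (W x) * Wi * T')
      = W x ⬝ᵥ (Wi * T' * Vi) *ᵥ V x := by
    rw [Matrix.mul_assoc (Vi * Matrix.vecMulVec (V x) (W x)) Wi T', dsg_tr]
  have f3 : Matrix.trace (Vi * T * -(Wi * Matrix.vecMulVec (W x) (W x) * Wi) * T')
      = -(W x ⬝ᵥ (Wi * T' * Vi * T * Wi) *ᵥ W x) := by
    have : Vi * T * -(Wi * Matrix.vecMulVec (W x) (W x) * Wi) * T'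
        = -((Vi * T * Wi) * Matrix.vecMulVec (W x) (W x) * (Wi * T')) := by
      simp only [Matrix.mul_neg, Matrix.neg_mul, Matrix.mul_assoc]
    rw [this, Matrix.trace_neg, dsg_tr]
    simp only [Matrix.mul_assoc]
  have f4 : Matrix.trace (Vi * T * Wi * Matrix.vecMulVec (W x) (V x))
      = V x ⬝ᵥ (Vi * T * Wi) *ᵥ W x := by
    have := dsg_tr (Vi * T * Wi) (1 : Matrix (Fin m) (Fin m) ℝ) (W x) (V x)
    rwa [Matrix.mul_one, Matrix.one_mul] at this
  rw [Matrix.trace_add, Matrix.add_mul, Matrix.trace_add, Matrix.add_mul, Matrix.add_mul,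
    Matrix.trace_add, f1, f2, f3, f4]
  unfold gs
  rw [e1, e2, div_eq_iff hy0.ne']
  have e34 : 2 * kp V W y x = y x * (V x ⬝ᵥ (Vi * T * Wi) *ᵥ W x)
      + y x * (W x ⬝ᵥ (Wi * T' * Vi) *ᵥ V x) := by
    rw [← e3, ← e4]
    ring
  rw [e34]
  ring

end Pool.Agent.Helper44.GN
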