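import Pool.Agent.Helper44.GN.Defs

/-!
# GN, module SMO (helper97): smoothness
-/

open Finset MeasureTheory Filter Topology Matrix
open scoped ENNReal ContDiff

namespace Pool.Agent.Helper44.GN

open Pool.Agent.Helper44.GF

/-- entries twice continuously differentiable on the orthant -/
def smoC {n a b : ℕ} (A : (Fin n → ℝ) → Matrix (Fin a) (Fin b) ℝ) : Prop :=
  ∀ i j, ContDiffOn ℝ 2 (fun y => A y i j) (Og n)

theorem smo_TT {n m : ℕ} (V W : Matrix (Fin n) (Fin m) ℝ) : smoC (fun y => TT V W y) := by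
  intro i j
  have h : (fun y : Fin n → ℝ => TT V W y i j) = fun y => ∑ x, V x i * y x * W x j := by
    funext y
    unfold TT
    rw [Matrix.mul_apply]
    refine Finset.sum_congr rfl fun x _ => ?_
    rw [Matrix.mul_diagonal, Matrix.transpose_apply]
  rw [h]
  apply ContDiff.contDiffOn
  apply ContDiff.sum
  intro x _
  exact (contDiff_const.mul (contDiff_apply ℝ ℝ x)).mul contDiff_const

theorem smo_mul {n a b c : ℕ} {A : (Fin n → ℝ) → Matrix (Fin a) (Fin b) ℝ}
    {B : (Fin n → ℝ) → Matrix (Fin b) (Fin c) ℝ} (hA : smoC A) (hB : smoC B) :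
    smoC (fun y => A y * B y) := by
  intro i j
  simp only [Matrix.mul_apply]
  apply ContDiffOn.sum
  intro x _
  exact (hA i x).mul (hB x j)

theorem smo_det {n a : ℕ} {A : (Fin n → ℝ) → Matrix (Fin a) (Fin a) ℝ} (hA : smoC A) :
    ContDiffOn ℝ 2 (fun y => (A y).det) (Og n) := by
  simp only [Matrix.det_apply]
  apply ContDiffOn.sum
  intro σ _
  apply ContDiffOn.const_smul
  apply contDiffOn_prod
  intro i _
  exact hA _ _

theorem smo_inv {n a : ℕ} {A : (Fin n → ℝ) → Matrix (Fin a) (Fin a) ℝ} (hA : smoC A)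
    (h0 : ∀ y ∈ Og n, (A y).det ≠ 0) : smoC (fun y => (A y)⁻¹) := by
  intro i j
  have h : (fun y => (A y)⁻¹ i j)
      = fun y => (A y).det⁻¹ * ((A y).updateRow j (Pi.single i 1)).det := by
    funext y
    rw [Matrix.inv_def, Matrix.smul_apply, Matrix.adjugate_apply, smul_eq_mul,
      Ring.inverse_eq_inv']
  rw [h]
  refine ((smo_det hA).inv h0).mul (smo_det ?_)
  intro k l
  simp only [Matrix.updateRow_apply]
  by_cases hk : k = j
  · simp only [hk, if_true]
    exact contDiffOn_const
  · simp only [hk, if_false]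
    exact hA k l

theorem smo_quad {n a b : ℕ} {A : (Fin n → ℝ) → Matrix (Fin a) (Fin b) ℝ} (hA : smoC A)
    (v : Fin a → ℝ) (w : Fin b → ℝ) (x : Fin n) :
    ContinuousOn (fun y => y x * (v ⬝ᵥ A y *ᵥ w)) (Og n) := by
  refine (continuous_apply x).continuousOn.mul ?_
  simp only [dotProduct, Matrix.mulVec]
  apply continuousOn_finsetSum
  intro i _
  refine continuousOn_const.mul ?_
  apply continuousOn_finsetSum
  intro j _
  exact (hA i j).continuousOn.mul continuousOn_const

theorem st_SMO (h1 : ST_PJP) (h2 : ST_PJE) : ST_SMO := by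
  intro n m V W hV hW
  have hVd : ∀ y ∈ Og n, (TT V V y).det ≠ 0 := fun y hy => (h1 n m V hV y hy).1.ne'
  have hWd : ∀ y ∈ Og n, (TT W W y).det ≠ 0 := fun y hy => (h1 n m W hW y hy).1.ne'
  have hVi : smoC (fun y => (TT V V y)⁻¹) := smo_inv (smo_TT V V) hVd
  have hWi : smoC (fun y => (TT W W y)⁻¹) := smo_inv (smo_TT W W) hWd
  have hlv : ∀ (U : Matrix (Fin n) (Fin m) ℝ), smoC (fun y => (TT U U y)⁻¹) →
      ∀ x, ContinuousOn (fun y => lv U y x) (Og n) := by
    intro U hU x
    refine (smo_quad hU (U x) (U x) x).congr ?_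
    intro y hy
    exact (h2 n m U U y hy).1 x
  have hkp : ∀ x, ContinuousOn (fun y => kp V W y x) (Og n) := by
    intro x
    refine (smo_quad (smo_mul (smo_mul hVi (smo_TT V W)) hWi) (V x) (W x) x).congr ?_
    intro y hy
    exact (h2 n m V W y hy).2.1 x
  have hkp' : ∀ x, ContinuousOn (fun y => kp W V y x) (Og n) := by
    intro x
    refine (smo_quad (smo_mul (smo_mul hWi (smo_TT W V)) hVi) (W x) (V x) x).congr ?_
    intro y hy
    exact (h2 n m W V y hy).2.1 x
  refine ⟨?_, ?_, hlv V hVi, ?_, ?_⟩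
  · exact ContDiffOn.log (smo_det (smo_TT V V)) hVd
  · have h : ContDiffOn ℝ 2 (fun y => (m : ℝ) - Matrix.trace
        ((TT V V y)⁻¹ * TT V W y * (TT W W y)⁻¹ * TT W V y)) (Og n) := by
      refine contDiffOn_const.sub ?_
      simp only [Matrix.trace, Matrix.diag]
      apply ContDiffOn.sum
      intro i _
      exact smo_mul (smo_mul (smo_mul hVi (smo_TT V W)) hWi) (smo_TT W V) i i
    refine h.congr ?_
    intro y hy
    show sg V W y = _
    unfold sg
    rw [(h2 n m V W y hy).2.2.1]
  · intro x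
    have : (fun y => d2 V W y x) = fun y => lv V y x + lv W y x - 2 * kp V W y x := rfl
    rw [this]
    exact ((hlv V hVi x).add (hlv W hWi x)).sub (continuousOn_const.mul (hkp x))
  · intro x
    have : (fun y => gs V W y x) = fun y => (PJ V y * PJ W y * PJ V y) x x
      + (PJ W y * PJ V y * PJ W y) x x - 2 * kp V W y x := rfl
    rw [this]
    refine (ContinuousOn.add ?_ ?_).sub (continuousOn_const.mul (hkp x))
    · refine (smo_quad (smo_mul (smo_mul (smo_mul (smo_mul hVi (smo_TT V W)) hWi)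
        (smo_TT W V)) hVi) (V x) (V x) x).congr ?_
      intro y hy
      exact (h2 n m V W y hy).2.2.2 x
    · refine (smo_quad (smo_mul (smo_mul (smo_mul (smo_mul hWi (smo_TT W V)) hVi)
        (smo_TT V W)) hWi) (W x) (W x) x).congr ?_
      intro y hy
      exact (h2 n m W V y hy).2.2.2 x

end Pool.Agent.Helper44.GN
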